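import Pool.Agent.H7.HDB.All12

/-!
# MP_e37c09_lc: normal measures of HOD on the regular cardinals above an extendible cardinal

Let `δ` be extendible. Then (A) holds, or for each `l < δ` there are `δ₁` and `δ₀` with
`l < δ₁ < δ₀ < δ` such that every regular cardinal `K > δ₀` has, in HOD, normal measures of Mitchell
rank at least `ξ` for all `ξ < δ₁` and, if HOD has fewer than `l` cardinals in `(K, 2 ^ K]`
(computed in HOD), the following properties.

(StM) Each subset of `K` in HOD which is stationary in `V` belongs to a normal measure of HOD on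
`K`.

(RkH) There is a set `Ξ` of fewer than `l` ordinals with the following properties. Let `x` be a
subset of `K` in HOD for which the set of the `ν ∈ x` with `δ₁ < cof ν` and `cof ν ∉ Ξ` is
stationary in `V`, and let `θ` be the successor of `K` in HOD, or at most the height of a
well-founded relation which is definable over `(V_(K+1))^HOD` with parameters. Then `x` belongs to a
normal measure of HOD on `K` whose Mitchell rank is at least `θ`. For all `ν` in a club subset of
`K` with `δ₁ < cof ν` and `cof ν ∉ Ξ` there is a normal measure of HOD on `ν` whose Mitchell rank is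
at least the successor of `ν` in HOD.
-/

open Cardinal Order

universe u

theorem Pool.Agent.H52.Kept.NormalMeasures.result
    (δ : Ordinal.{u}) (hδ : HD.Extendible δ) : HD.CaseA δ ∨ ∀ l < δ, ∃ δ₁ δ₀,
      l < δ₁ ∧ δ₁ < δ₀ ∧ δ₀ < δ ∧ ∀ K : Cardinal.{u}, K.IsRegular → δ₀ < K.ord →
        (∀ ξ < δ₁, ∃ U, HD.MGe K.ord ξ U) ∧
        (HD.Few l (HD.PC K) → HD.StM K ∧ HD.RkH l δ₁ K) :=
  HD.All.m17 δ hδ
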